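import Pool.Agent.H95.FG.Defs

open MvPolynomial Module

namespace H12.FG

open H95.FG

/-- restriction of a polynomial to a line, with its derivative -/
theorem line_poly {σ : Type} [Fintype σ] (F : MvPolynomial σ ℂ) (z v : σ → ℂ) :
    ∃ g : Polynomial ℂ, (∀ r, g.eval r = eval (fun i => z i + r * v i) F) ∧
      ∀ r, g.derivative.eval r = ∑ i, v i * eval (fun i => z i + r * v i) (pderiv i F) := by
  classical
  induction F using MvPolynomial.induction_on with
  | C a =>
    refine ⟨Polynomial.C a, fun r => by simp, fun r => by simp⟩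
  | add p q hp hq =>
    obtain ⟨g, hg1, hg2⟩ := hp
    obtain ⟨h, hh1, hh2⟩ := hq
    refine ⟨g + h, fun r => by simp [hg1, hh1], fun r => ?_⟩
    rw [Polynomial.derivative_add, Polynomial.eval_add, hg2, hh2, ← Finset.sum_add_distrib]
    refine Finset.sum_congr rfl fun i _ => ?_
    rw [map_add, map_add]
    ring
  | mul_X p i hp =>
    obtain ⟨g, hg1, hg2⟩ := hp
    refine ⟨g * (Polynomial.C (z i) + Polynomial.C (v i) * Polynomial.X), fun r => ?_, fun r => ?_⟩
    · rw [Polynomial.eval_mul, hg1, map_mul, eval_X, Polynomial.eval_add, Polynomial.eval_mul,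
        Polynomial.eval_C, Polynomial.eval_C, Polynomial.eval_X]
      ring
    · rw [Polynomial.derivative_mul]
      simp only [Polynomial.derivative_add, Polynomial.derivative_C, zero_add,
        Polynomial.derivative_C_mul, Polynomial.derivative_X, mul_one, Polynomial.eval_add,
        Polynomial.eval_mul, Polynomial.eval_C, Polynomial.eval_X, hg1, hg2]
      have h1 : ∀ j, v j * eval (fun i => z i + r * v i) (pderiv j (p * X i)) =
          (v j * eval (fun i => z i + r * v i) (pderiv j p)) * (z i + r * v i) +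
          (if j = i then v i * eval (fun i => z i + r * v i) p else 0) := by
        intro j
        rw [pderiv_mul, map_add, map_mul, map_mul, eval_X, pderiv_X]
        by_cases hj : j = i
        · subst hj
          simp
          ring
        · rw [if_neg hj, Pi.single_eq_of_ne (Ne.symm hj)]
          simp
          ring
      rw [Finset.sum_congr rfl fun j _ => h1 j, Finset.sum_add_distrib, ← Finset.sum_mul,
        Finset.sum_ite_eq' Finset.univ i]
      simp
      ring

/-- a functional on `ℂ^m` is given by coefficients -/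
theorem dual_coeff {m : ℕ} (φ : (Fin m → ℂ) →ₗ[ℂ] ℂ) :
    ∃ c : Fin m → ℂ, ∀ x, φ x = ∑ j, x j * c j := by
  refine ⟨fun j => φ (Pi.single j 1), fun x => ?_⟩
  rw [LinearMap.pi_apply_eq_sum_univ φ x]
  refine Finset.sum_congr rfl fun j _ => ?_
  rw [smul_eq_mul]
  congr 2
  funext i
  by_cases h : j = i
  · subst h; simp
  · rw [if_neg h, Pi.single_eq_of_ne (Ne.symm h)]

theorem exists_sep {n : ℕ} {a b : Fin n → ℂ} (h : LinearIndependent ℂ ![a, b]) :
    ∃ U : Fin n → ℂ, ∑ k, a k * U k = 0 ∧ ∑ k, b k * U k ≠ 0 := by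
  have hb : b ∉ Submodule.span ℂ {a} := by
    intro hb
    obtain ⟨c, hc⟩ := Submodule.mem_span_singleton.mp hb
    rw [LinearIndependent.pair_iff] at h
    have h1 := h c (-1) (by rw [hc]; simp)
    exact absurd h1.2 (by norm_num)
  obtain ⟨f, hf1, hf2⟩ := Submodule.exists_dual_map_eq_bot_of_notMem hb inferInstance
  obtain ⟨U, hU⟩ := dual_coeff f
  refine ⟨U, ?_, ?_⟩
  · rw [← hU]
    have h1 : f a ∈ (Submodule.span ℂ {a}).map f :=
      Submodule.mem_map_of_mem (Submodule.mem_span_singleton_self a)
    rw [hf2] at h1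
    exact (Submodule.mem_bot ℂ).mp h1
  · rw [← hU]
    exact hf1

theorem exists_ne {n : ℕ} (A : MvPolynomial (Fin n ⊕ Fin n) ℂ) (z v Y : Fin n → ℂ)
    (h : AA A z Y ≠ 0) (x : ℂ) : ∃ r, r ≠ x ∧ AA A (z + r • v) Y ≠ 0 := by
  obtain ⟨g, hg, -⟩ := line_poly A (Sum.elim z Y) (Sum.elim v 0)
  have hg' : ∀ r, g.eval r = AA A (z + r • v) Y := by
    intro r
    rw [hg]
    unfold AA
    congr 2
    funext i
    rcases i with i | i <;> simp
  have hg0 : g ≠ 0 := by
    intro h0
    apply h
    have := hg' 0
    rw [h0, Polynomial.eval_zero, zero_smul, add_zero] at this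
    exact this.symm
  obtain ⟨r, hr⟩ := Infinite.exists_notMem_finset (insert x g.roots.toFinset)
  rw [Finset.mem_insert, not_or, Multiset.mem_toFinset, Polynomial.mem_roots hg0] at hr
  refine ⟨r, hr.1, ?_⟩
  rw [← hg']
  exact hr.2

theorem t_COL (hPAIR : S_PAIR) : S_COL := by
  intro n m p A hS hPl a b Y hab haY hbY hne
  classical
  set W : Submodule ℂ (Fin m → ℂ) :=
    Submodule.span ℂ (Set.range fun q : ℂ × ℂ => ev p (q.1 • a + q.2 • b)) with hW
  have hrank : finrank ℂ W ≤ 3 := by
    by_contra hcon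
    push Not at hcon
    obtain ⟨f, hf1, -, hf3⟩ := Submodule.exists_fun_fin_finrank_span_eq ℂ
      (Set.range fun q : ℂ × ℂ => ev p (q.1 • a + q.2 • b))
    have hle : 4 ≤ finrank ℂ (Submodule.span ℂ (Set.range fun q : ℂ × ℂ =>
      ev p (q.1 • a + q.2 • b))) := hcon
    choose q hq using fun i => hf1 (Fin.castLE hle i)
    apply hPl a b (fun i => (q i).1) (fun i => (q i).2)
    have h1 := hf3.comp (Fin.castLE hle) (Fin.castLE_injective hle)
    have h2 : (f ∘ Fin.castLE hle) = fun i => ev p ((q i).1 • a + (q i).2 • b) := by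
      funext i
      exact (hq i).symm
    rwa [h2] at h1
  have hev : ∀ s t : ℂ, ev p (s • a + t • b) ∈ W := fun s t =>
    Submodule.subset_span ⟨(s, t), rfl⟩
  have hdp : ∀ s t s' t' : ℂ, dp p (s' • a + t' • b) (s • a + t • b) ∈ W := by
    intro s t s' t'
    by_contra hcon
    obtain ⟨φ, hφ1, hφ2⟩ := Submodule.exists_dual_map_eq_bot_of_notMem hcon inferInstance
    obtain ⟨c, hc⟩ := dual_coeff φ
    apply hφ1
    obtain ⟨g, hg1, hg2⟩ := line_poly (∑ j, C (c j) * p j) (s • a + t • b) (s' • a + t' • b)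
    have hg : g = 0 := by
      apply Polynomial.funext
      intro r
      rw [hg1, Polynomial.eval_zero]
      have h1 : φ (ev p ((s + r * s') • a + (t + r * t') • b)) = 0 := by
        have h2 : φ (ev p ((s + r * s') • a + (t + r * t') • b)) ∈ W.map φ :=
          Submodule.mem_map_of_mem (hev _ _)
        rw [hφ2] at h2
        exact (Submodule.mem_bot ℂ).mp h2
      rw [hc] at h1
      have h3 : (fun i => (s • a + t • b) i + r * (s' • a + t' • b) i) =
          ((s + r * s') • a + (t + r * t') • b) := by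
        funext i
        simp only [Pi.add_apply, Pi.smul_apply, smul_eq_mul]
        ring
      rw [h3, map_sum, ← h1]
      refine Finset.sum_congr rfl fun j _ => ?_
      rw [map_mul, eval_C, mul_comm]
      rfl
    have h1 := hg2 0
    rw [hg, Polynomial.derivative_zero, Polynomial.eval_zero] at h1
    rw [hc]
    unfold dp
    rw [h1]
    simp only [zero_mul, add_zero]
    rw [Finset.sum_congr rfl fun j _ => Finset.sum_mul _ _ _, Finset.sum_comm]
    refine Finset.sum_congr rfl fun k _ => ?_
    rw [map_sum, map_sum, Finset.mul_sum]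
    refine Finset.sum_congr rfl fun j _ => ?_
    rw [Derivation.leibniz, map_add, smul_eq_mul, smul_eq_mul, map_mul, map_mul, pderiv_C, map_zero,
      mul_zero, add_zero, eval_C]
    ring
  -- separating vectors
  obtain ⟨U2, hU2a, hU2b⟩ := exists_sep hab
  obtain ⟨U1, hU1b, hU1a⟩ := exists_sep (a := b) (b := a) (by
    rw [LinearIndependent.pair_iff] at hab ⊢
    intro s t h
    have := hab t s (by rw [add_comm]; exact h)
    exact ⟨this.2, this.1⟩)
  have hzY : ∀ s t : ℂ, ∑ k, (s • a + t • b) k * Y k = 0 := by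
    intro s t
    simp only [Pi.add_apply, Pi.smul_apply, smul_eq_mul, add_mul, mul_assoc,
      Finset.sum_add_distrib]
    rw [← Finset.mul_sum, ← Finset.mul_sum, haY, hbY]
    ring
  have hzU : ∀ (U : Fin n → ℂ) (s t : ℂ), ∑ k, (s • a + t • b) k * U k =
      s * ∑ k, a k * U k + t * ∑ k, b k * U k := by
    intro U s t
    simp only [Pi.add_apply, Pi.smul_apply, smul_eq_mul, add_mul, mul_assoc,
      Finset.sum_add_distrib]
    rw [← Finset.mul_sum, ← Finset.mul_sum]
  -- two good points
  obtain ⟨s0, t0, hst⟩ := hne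
  obtain ⟨r1, hr1, hA1⟩ := exists_ne A (s0 • a + t0 • b) a Y hst (-s0)
  obtain ⟨r2, hr2, hA2⟩ := exists_ne A (s0 • a + t0 • b + r1 • a) b Y hA1 0
  have e1 : s0 • a + t0 • b + r1 • a = (s0 + r1) • a + t0 • b := by
    rw [add_smul]; abel
  have e2 : s0 • a + t0 • b + r1 • a + r2 • b = (s0 + r1) • a + (t0 + r2) • b := by
    rw [add_smul, add_smul]; abel
  rw [e1] at hA1
  rw [e2] at hA2
  have hs1 : s0 + r1 ≠ 0 := fun h => hr1 (by linear_combination h)
  -- the functionals
  set G : (Fin n → ℂ) → (Fin m → ℂ) → ℂ := fun U x => ∑ j, x j * dp (fun j => cj (p j)) U Y j with hG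
  have hGlin : ∀ (U : Fin n → ℂ) (x y z w : Fin m → ℂ) (c1 c2 c3 c4 : ℂ),
      G U (c1 • x + c2 • y + c3 • z + c4 • w) = c1 * G U x + c2 * G U y + c3 * G U z + c4 * G U w := by
    intro U x y z w c1 c2 c3 c4
    simp only [hG, Finset.mul_sum, ← Finset.sum_add_distrib]
    refine Finset.sum_congr rfl fun j _ => ?_
    simp only [Pi.add_apply, Pi.smul_apply, smul_eq_mul]
    ring
  have hGz : ∀ U, G U 0 = 0 := by
    intro U
    simp [hG]
  have hGev : ∀ (U : Fin n → ℂ) (s t : ℂ), G U (ev p (s • a + t • b)) =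
      (s * ∑ k, a k * U k + t * ∑ k, b k * U k) * AA A (s • a + t • b) Y := by
    intro U s t
    have h1 := (hPAIR n m p A hS (s • a + t • b) Y U (s • a + t • b) (hzY s t) (hzY s t)).1
    rw [hzU] at h1
    exact h1
  have hcol : ∀ x1 ∈ W, ∀ x2 ∈ W, (∀ U, G U x1 = 0) → (∀ U, G U x2 = 0) →
      ¬ LinearIndependent ℂ ![x1, x2] := by
    intro x1 hx1 x2 hx2 hG1 hG2 hLI
    set u1 := ev p ((s0 + r1) • a + t0 • b) with hu1
    set u2 := ev p ((s0 + r1) • a + (t0 + r2) • b) with hu2
    have h4 : LinearIndependent ℂ ![x1, x2, u1, u2] := by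
      rw [Fintype.linearIndependent_iff]
      intro g hg
      rw [Fin.sum_univ_four] at hg
      simp only [Matrix.cons_val_zero, Matrix.cons_val_one, Matrix.cons_val] at hg
      have k1 := congrArg (G U1) hg
      have k2 := congrArg (G U2) hg
      rw [hGlin, hGz, hG1, hG2, hu1, hu2, hGev, hGev, hU1b] at k1
      rw [hGlin, hGz, hG1, hG2, hu1, hu2, hGev, hGev, hU2a] at k2
      have k3 : g 2 * AA A ((s0 + r1) • a + t0 • b) Y +
          g 3 * AA A ((s0 + r1) • a + (t0 + r2) • b) Y = 0 := by
        have : ((s0 + r1) * ∑ k, a k * U1 k) * (g 2 * AA A ((s0 + r1) • a + t0 • b) Y +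
          g 3 * AA A ((s0 + r1) • a + (t0 + r2) • b) Y) = 0 := by linear_combination k1
        rcases mul_eq_zero.mp this with h | h
        · exact absurd h (mul_ne_zero hs1 hU1a)
        · exact h
      have k4 : g 3 * (r2 * AA A ((s0 + r1) • a + (t0 + r2) • b) Y) = 0 := by
        have : (∑ k, b k * U2 k) * (g 2 * (t0 * AA A ((s0 + r1) • a + t0 • b) Y) +
          g 3 * ((t0 + r2) * AA A ((s0 + r1) • a + (t0 + r2) • b) Y)) = 0 := by
            linear_combination k2
        rcases mul_eq_zero.mp this with h | h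
        · exact absurd h hU2b
        · linear_combination h - t0 * k3
      have g3 : g 3 = 0 := by
        rcases mul_eq_zero.mp k4 with h | h
        · exact h
        · exact absurd h (mul_ne_zero hr2 hA2)
      have g2 : g 2 = 0 := by
        rw [g3, zero_mul, add_zero] at k3
        rcases mul_eq_zero.mp k3 with h | h
        · exact h
        · exact absurd h hA1
      rw [g2, g3, zero_smul, zero_smul, add_zero, add_zero] at hg
      rw [LinearIndependent.pair_iff] at hLI
      obtain ⟨g0, g1⟩ := hLI _ _ hg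
      intro i
      fin_cases i
      · exact g0
      · exact g1
      · exact g2
      · exact g3
    let w : Fin 4 → W := ![⟨x1, hx1⟩, ⟨x2, hx2⟩, ⟨u1, hev _ _⟩, ⟨u2, hev _ _⟩]
    have h5 : LinearIndependent ℂ w := by
      apply LinearIndependent.of_comp W.subtype
      have : (W.subtype ∘ w) = ![x1, x2, u1, u2] := by
        funext i
        fin_cases i <;> rfl
      rw [this]
      exact h4
    have h6 := h5.fintype_card_le_finrank
    rw [Fintype.card_fin] at h6
    omega
  constructor
  · intro s t s' t' h h'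
    apply hcol _ (hev s t) _ (hev s' t')
    · intro U
      rw [hGev, h, mul_zero]
    · intro U
      rw [hGev, h', mul_zero]
  · intro s t s' t' h h'
    apply hcol _ (hev s t) _ (hdp s t s' t')
    · intro U
      rw [hGev, h, mul_zero]
    · intro U
      have h1 := (hPAIR n m p A hS (s • a + t • b) Y U (s' • a + t' • b) (hzY s t) (hzY s' t')).2
      rw [h, h', mul_zero, mul_zero, add_zero] at h1
      exact h1

end H12.FG
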