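import Pool.Agent.H95.FG.Defs

open MvPolynomial

namespace H12.FG

open H95.FG

/-- a vector which is orthogonal to none of finitely many nonzero vectors -/
theorem exists_avoid {n : ℕ} (W : Finset (Fin n → ℂ)) (hW : ∀ w ∈ W, w ≠ 0) :
    ∃ b : Fin n → ℂ, ∀ w ∈ W, ∑ k, b k * w k ≠ 0 := by
  classical
  let P : (Fin n → ℂ) → Polynomial ℂ := fun w => ∑ k : Fin n, Polynomial.monomial (k : ℕ) (w k)
  have hP : ∀ w ∈ W, P w ≠ 0 := by
    intro w hw h
    apply hW w hw
    funext k
    have h1 := congrArg (fun q => Polynomial.coeff q (k : ℕ)) h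
    simp only [P, Polynomial.finsetSum_coeff, Polynomial.coeff_monomial, Polynomial.coeff_zero] at h1
    rw [Finset.sum_eq_single k] at h1
    · simpa using h1
    · intro j _ hj
      rw [if_neg]
      intro h2
      exact hj (Fin.ext h2)
    · intro h2
      exact absurd (Finset.mem_univ _) h2
  have hne : ∏ w ∈ W, P w ≠ 0 := Finset.prod_ne_zero_iff.mpr hP
  obtain ⟨s, hs⟩ : ∃ s, (∏ w ∈ W, P w).eval s ≠ 0 := by
    by_contra hcon
    push Not at hcon
    exact hne (Polynomial.funext (by simpa using hcon))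
  rw [Polynomial.eval_prod, Finset.prod_ne_zero_iff] at hs
  refine ⟨fun k => s ^ (k : ℕ), fun w hw => ?_⟩
  have h1 := hs w hw
  simp only [P, Polynomial.eval_finsetSum, Polynomial.eval_monomial] at h1
  convert h1 using 2
  rw [mul_comm]

theorem KK_eq_zero {n m : ℕ} {p : Fin m → MvPolynomial (Fin n) ℂ}
    {A : MvPolynomial (Fin n ⊕ Fin n) ℂ} (h : Sys n m p A) (z Y : Fin n → ℂ) :
    KK p z Y = (∑ k, z k * Y k) * AA A z Y := by
  have h1 := congrArg (eval (Sum.elim z Y)) h.2
  simp only [map_sum, map_mul, eval_rename, eval_X, Sum.elim_inl, Sum.elim_inr] at h1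
  unfold KK AA
  exact h1

theorem eval_cj {n : ℕ} (f : MvPolynomial (Fin n) ℂ) (z : Fin n → ℂ) :
    eval (cv z) (cj f) = (starRingEnd ℂ) (eval z f) := by
  induction f using MvPolynomial.induction_on with
  | C a => simp [cj]
  | add p q hp hq =>
    unfold cj at *
    rw [map_add, map_add, hp, hq, map_add, map_add]
  | mul_X p i hp =>
    unfold cj at *
    rw [map_mul, map_mul, hp, map_X, eval_X, map_mul, eval_X, map_mul]
    rfl

theorem t_STAR : S_STAR := by
  intro n m p A hS z0 f S hinf hLI hpar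
  classical
  by_contra hne
  -- the polynomial
  set k : MvPolynomial (Fin n) ℂ := ∑ j, C ((starRingEnd ℂ) (eval z0 (p j))) * p j with hk
  have hkev : ∀ v, eval v k = KK p v (cv z0) := by
    intro v
    rw [hk]
    simp only [map_sum, map_mul, eval_C]
    unfold KK
    refine Finset.sum_congr rfl fun j _ => ?_
    rw [eval_cj, mul_comm]
  have hk0 : eval z0 k ≠ 0 := by
    rw [hkev]
    unfold KK
    have h1 : ∑ j, eval z0 (p j) * eval (cv z0) (cj (p j)) =
        ((∑ j, ‖eval z0 (p j)‖ ^ 2 : ℝ) : ℂ) := by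
      push_cast
      refine Finset.sum_congr rfl fun j _ => ?_
      rw [eval_cj, Complex.mul_conj, Complex.normSq_eq_norm_sq]
      push_cast
      ring
    rw [h1]
    intro h2
    have h3 : (∑ j, ‖eval z0 (p j)‖ ^ 2 : ℝ) = 0 := by exact_mod_cast h2
    rw [Finset.sum_eq_zero_iff_of_nonneg (fun j _ => by positivity)] at h3
    apply hne
    funext j
    have h4 := h3 j (Finset.mem_univ _)
    have h5 : ‖eval z0 (p j)‖ = 0 := by
      have : ‖eval z0 (p j)‖ ^ 2 = 0 := h4
      exact pow_eq_zero_iff (two_ne_zero) |>.mp this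
    exact norm_eq_zero.mp h5
  have hvan : ∀ σ ∈ S, ∀ v, ∑ i, v i * cv (f σ) i = 0 → eval v k = 0 := by
    intro σ hσ v hv
    obtain ⟨c, hc, hcp⟩ := hpar σ hσ
    have h1 : KK p v (cv (f σ)) = 0 := by rw [KK_eq_zero hS, hv, zero_mul]
    have h2 : KK p v (cv (f σ)) = (starRingEnd ℂ) c * KK p v (cv z0) := by
      unfold KK
      rw [Finset.mul_sum]
      refine Finset.sum_congr rfl fun j _ => ?_
      rw [eval_cj, eval_cj]
      have h3 : eval (f σ) (p j) = c * eval z0 (p j) := congrFun hcp j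
      rw [h3, map_mul]
      ring
    rw [hkev]
    rw [h2] at h1
    rcases mul_eq_zero.mp h1 with h4 | h4
    · exact absurd ((map_eq_zero _).mp h4) hc
    · exact h4
  obtain ⟨T, hTS, hTc⟩ := hinf.exists_subset_card_eq (k.totalDegree + 1)
  set w : ℂ → Fin n → ℂ := fun σ => cv (f σ) with hw
  set α : ℂ → ℂ := fun σ => ∑ i, z0 i * w σ i with hα
  have hα0 : ∀ σ ∈ T, α σ ≠ 0 := fun σ hσ h => hk0 (hvan σ (hTS hσ) z0 h)
  have hw0 : ∀ σ ∈ T, w σ ≠ 0 := by
    intro σ hσ h
    apply hα0 σ hσ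
    simp [hα, h]
  have hpair : ∀ σ ∈ T, ∀ τ ∈ T, σ ≠ τ → α σ • w τ - α τ • w σ ≠ 0 := by
    intro σ hσ τ hτ hne' h
    have h1 := hLI σ (hTS hσ) τ (hTS hτ) hne'
    rw [LinearIndependent.pair_iff] at h1
    have h2 := h1 (-(starRingEnd ℂ) (α τ)) ((starRingEnd ℂ) (α σ)) (by
      funext i
      have h3 := congrFun h i
      simp only [Pi.sub_apply, Pi.smul_apply, smul_eq_mul, Pi.zero_apply, hw, cv] at h3
      simp only [Pi.add_apply, Pi.smul_apply, smul_eq_mul, Pi.zero_apply]
      have h4 := congrArg (starRingEnd ℂ) h3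
      simp only [map_sub, map_mul, Complex.conj_conj, map_zero] at h4
      linear_combination h4)
    have h5 := h2.2
    exact hα0 σ hσ ((map_eq_zero _).mp h5)
  obtain ⟨b, hb⟩ := exists_avoid (T.image w ∪ (T.offDiag).image
    (fun q : ℂ × ℂ => α q.1 • w q.2 - α q.2 • w q.1)) (by
      intro v hv
      rw [Finset.mem_union, Finset.mem_image, Finset.mem_image] at hv
      rcases hv with ⟨σ, hσ, rfl⟩ | ⟨q, hq, rfl⟩
      · exact hw0 σ hσ
      · rw [Finset.mem_offDiag] at hq
        exact hpair q.1 hq.1 q.2 hq.2.1 hq.2.2)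
  set β : ℂ → ℂ := fun σ => ∑ i, b i * w σ i with hβ
  have hβ0 : ∀ σ ∈ T, β σ ≠ 0 := fun σ hσ =>
    hb (w σ) (Finset.mem_union_left _ (Finset.mem_image_of_mem _ hσ))
  have hβp : ∀ σ ∈ T, ∀ τ ∈ T, σ ≠ τ → α σ * β τ - α τ * β σ ≠ 0 := by
    intro σ hσ τ hτ hne' h
    apply hb (α σ • w τ - α τ • w σ) (Finset.mem_union_right _ (Finset.mem_image.mpr
      ⟨(σ, τ), Finset.mem_offDiag.mpr ⟨hσ, hτ, hne'⟩, rfl⟩))
    rw [← h, hβ]
    simp only [Pi.sub_apply, Pi.smul_apply, smul_eq_mul, Finset.mul_sum]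
    rw [← Finset.sum_sub_distrib]
    refine Finset.sum_congr rfl fun i _ => ?_
    ring
  -- the polynomial on the line
  set g : Polynomial ℂ := aeval (fun i => Polynomial.C (z0 i) + Polynomial.C (b i) * Polynomial.X) k
    with hg
  have hgev : ∀ t, g.eval t = eval (fun i => z0 i + b i * t) k := by
    intro t
    rw [hg]
    have h1 : (Polynomial.evalRingHom t) (aeval (fun i => Polynomial.C (z0 i) +
        Polynomial.C (b i) * Polynomial.X) k) =
        (((Polynomial.aeval t : Polynomial ℂ →ₐ[ℂ] ℂ).comp (aeval (fun i => Polynomial.C (z0 i) +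
        Polynomial.C (b i) * Polynomial.X))) k) := by
      rw [AlgHom.comp_apply, Polynomial.coe_aeval_eq_eval]
      rfl
    rw [Polynomial.coe_evalRingHom] at h1
    rw [h1]
    have h2 : (Polynomial.aeval t : Polynomial ℂ →ₐ[ℂ] ℂ).comp (aeval (fun i =>
        Polynomial.C (z0 i) + Polynomial.C (b i) * Polynomial.X)) =
        (aeval (fun i => z0 i + b i * t) : MvPolynomial (Fin n) ℂ →ₐ[ℂ] ℂ) := by
      apply MvPolynomial.algHom_ext
      intro i
      simp
    rw [h2]
    rfl
  have hgdeg : g.natDegree ≤ k.totalDegree * 1 := by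
    rw [hg]
    apply MvPolynomial.aeval_natDegree_le
    · exact le_rfl
    · intro i
      compute_degree
  have hgz : g = 0 := by
    apply Polynomial.eq_zero_of_natDegree_lt_card_of_eval_eq_zero' g (T.image (fun σ => -α σ / β σ))
    · intro t ht
      rw [Finset.mem_image] at ht
      obtain ⟨σ, hσ, rfl⟩ := ht
      rw [hgev]
      apply hvan σ (hTS hσ)
      have h1 : ∑ i, (z0 i + b i * (-α σ / β σ)) * cv (f σ) i = α σ + β σ * (-α σ / β σ) := by
        rw [hα, hβ, Finset.sum_mul, ← Finset.sum_add_distrib]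
        refine Finset.sum_congr rfl fun i _ => ?_
        simp only [hw]
        ring
      rw [h1]
      field_simp [hβ0 σ hσ]
      ring
    · rw [Finset.card_image_of_injOn, hTc]
      · omega
      · intro σ hσ τ hτ h
        by_contra hne'
        apply hβp σ hσ τ hτ hne'
        have h1 : -α σ / β σ = -α τ / β τ := h
        rw [div_eq_div_iff (hβ0 σ hσ) (hβ0 τ hτ)] at h1
        linear_combination -h1
  apply hk0
  have h1 := hgev 0
  rw [hgz, Polynomial.eval_zero] at h1
  have h2 : (fun i => z0 i + b i * (0 : ℂ)) = z0 := by funext i; ring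
  rw [h2] at h1
  exact h1.symm

end H12.FG
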