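import Pool.Agent.H12.FG.Col
import Pool.Agent.H12.FG.Star

open MvPolynomial Module

namespace H12.FG

open H95.FG
open scoped InnerProductSpace

theorem lin_Y {n : ℕ} {A : MvPolynomial (Fin n ⊕ Fin n) ℂ} {z : Fin n → ℂ}
    (h : ∀ (c : ℂ) (Y : Fin n → ℂ), AA A z (c • Y) = c * AA A z Y) :
    ∀ Y, AA A z Y = ∑ i, Y i * AA A z (Pi.single i 1) := by
  classical
  have key : ∀ Y, AA A z Y = ∑ i, Y i * eval (Sum.elim z 0) (pderiv (Sum.inr i) A) := by
    intro Y
    obtain ⟨g, hg1, hg2⟩ := line_poly A (Sum.elim z 0) (Sum.elim 0 Y)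
    have hg : g = Polynomial.C (AA A z Y) * Polynomial.X := by
      apply Polynomial.funext
      intro r
      rw [hg1, Polynomial.eval_mul, Polynomial.eval_C, Polynomial.eval_X, mul_comm, ← h]
      unfold AA
      congr 2
      funext i
      rcases i with i | i <;> simp
    have h1 := hg2 0
    rw [hg] at h1
    simp only [Polynomial.derivative_mul, Polynomial.derivative_C, Polynomial.derivative_X,
      Polynomial.eval_add, Polynomial.eval_mul, Polynomial.eval_zero, Polynomial.eval_C,
      Polynomial.eval_one, zero_mul, zero_add, mul_one, add_zero, Fintype.sum_sum_type,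
      Sum.elim_inl, Sum.elim_inr, Pi.zero_apply, Finset.sum_const_zero] at h1
    rw [h1]
  have key2 : ∀ i, eval (Sum.elim z 0) (pderiv (Sum.inr i) A) = AA A z (Pi.single i 1) := by
    intro i
    rw [key (Pi.single i 1), Finset.sum_eq_single i]
    · simp
    · intro j _ hj
      rw [Pi.single_eq_of_ne hj, zero_mul]
    · intro h2
      exact absurd (Finset.mem_univ _) h2
  intro Y
  rw [key Y]
  refine Finset.sum_congr rfl fun i _ => ?_
  rw [key2]

theorem lin_z {n : ℕ} {A : MvPolynomial (Fin n ⊕ Fin n) ℂ} {Y : Fin n → ℂ}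
    (h : ∀ (c : ℂ) (z : Fin n → ℂ), AA A (c • z) Y = c * AA A z Y) :
    ∀ z, AA A z Y = ∑ i, z i * AA A (Pi.single i 1) Y := by
  classical
  have key : ∀ z, AA A z Y = ∑ i, z i * eval (Sum.elim 0 Y) (pderiv (Sum.inl i) A) := by
    intro z
    obtain ⟨g, hg1, hg2⟩ := line_poly A (Sum.elim 0 Y) (Sum.elim z 0)
    have hg : g = Polynomial.C (AA A z Y) * Polynomial.X := by
      apply Polynomial.funext
      intro r
      rw [hg1, Polynomial.eval_mul, Polynomial.eval_C, Polynomial.eval_X, mul_comm, ← h]
      unfold AA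
      congr 2
      funext i
      rcases i with i | i <;> simp
    have h1 := hg2 0
    rw [hg] at h1
    simp only [Polynomial.derivative_mul, Polynomial.derivative_C, Polynomial.derivative_X,
      Polynomial.eval_add, Polynomial.eval_mul, Polynomial.eval_zero, Polynomial.eval_C,
      Polynomial.eval_one, zero_mul, zero_add, mul_one, add_zero, Fintype.sum_sum_type,
      Sum.elim_inl, Sum.elim_inr, Pi.zero_apply, Finset.sum_const_zero] at h1
    rw [h1]
  have key2 : ∀ i, eval (Sum.elim 0 Y) (pderiv (Sum.inl i) A) = AA A (Pi.single i 1) Y := by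
    intro i
    rw [key (Pi.single i 1), Finset.sum_eq_single i]
    · simp
    · intro j _ hj
      rw [Pi.single_eq_of_ne hj, zero_mul]
    · intro h2
      exact absurd (Finset.mem_univ _) h2
  intro z
  rw [key z]
  refine Finset.sum_congr rfl fun i _ => ?_
  rw [key2]

theorem exists_points {n m : ℕ} {p : Fin m → MvPolynomial (Fin n) ℂ}
    (hp : LinearIndependent ℂ p) :
    ∃ Z : Fin m → (Fin n → ℂ), LinearIndependent ℂ (fun i => ev p (Z i)) := by
  classical
  have htop : Submodule.span ℂ (Set.range (ev p)) = ⊤ := by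
    by_contra hcon
    obtain ⟨x, hx⟩ : ∃ x, x ∉ Submodule.span ℂ (Set.range (ev p)) := by
      by_contra h
      push Not at h
      exact hcon (eq_top_iff.mpr fun x _ => h x)
    obtain ⟨φ, hφ1, hφ2⟩ := Submodule.exists_dual_map_eq_bot_of_notMem hx inferInstance
    obtain ⟨c, hc⟩ := dual_coeff φ
    have h1 : ∑ j, c j • p j = 0 := by
      apply MvPolynomial.funext
      intro z
      have h2 : φ (ev p z) = 0 := by
        have h3 : φ (ev p z) ∈ (Submodule.span ℂ (Set.range (ev p))).map φ :=
          Submodule.mem_map_of_mem (Submodule.subset_span ⟨z, rfl⟩)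
        rw [hφ2] at h3
        exact (Submodule.mem_bot ℂ).mp h3
      rw [hc] at h2
      rw [map_sum, map_zero, ← h2]
      refine Finset.sum_congr rfl fun j _ => ?_
      rw [smul_eval, mul_comm]
      rfl
    have h2 := Fintype.linearIndependent_iff.mp hp c h1
    apply hφ1
    rw [hc]
    exact Finset.sum_eq_zero fun j _ => by rw [h2, mul_zero]
  obtain ⟨f, hf1, -, hf3⟩ := Submodule.exists_fun_fin_finrank_span_eq ℂ (Set.range (ev p))
  have hm : m = finrank ℂ (Submodule.span ℂ (Set.range (ev p))) := by
    rw [htop, finrank_top, finrank_fin_fun]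
  choose Z hZ using hf1
  refine ⟨fun i => Z (Fin.cast hm i), ?_⟩
  have h1 := hf3.comp (Fin.cast hm) (Fin.cast_injective hm)
  have h2 : (fun i => ev p (Z (Fin.cast hm i))) = f ∘ Fin.cast hm := funext fun i => hZ _
  rw [h2]
  exact h1

theorem t_D2 (hHOMA : S_HOMA) : S_D2 := by
  intro n m p A hS hH hmn
  classical
  have hn : 1 ≤ n := by omega
  have hhom := hHOMA n m 1 p A hn hS hH
  have hlinY : ∀ z Y, AA A z Y = ∑ i, Y i * AA A z (Pi.single i 1) := fun z =>
    lin_Y (fun c Y => by rw [(hhom c z Y).2, pow_one])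
  have hlinz : ∀ Y z, AA A z Y = ∑ i, z i * AA A (Pi.single i 1) Y := fun Y =>
    lin_z (fun c z => by rw [(hhom c z Y).1, pow_one])
  have hreal : ∀ v : Fin n → ℂ, ∃ r : ℝ, 0 ≤ r ∧ AA A v (cv v) = r := by
    intro v
    by_cases hv : v = 0
    · refine ⟨0, le_rfl, ?_⟩
      rw [hlinz]
      simp [hv]
    · have h1 := KK_eq_zero hS v (cv v)
      have h2 : KK p v (cv v) = ((∑ j, ‖eval v (p j)‖ ^ 2 : ℝ) : ℂ) := by
        unfold KK
        push_cast
        refine Finset.sum_congr rfl fun j _ => ?_
        rw [eval_cj, Complex.mul_conj, Complex.normSq_eq_norm_sq]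
        push_cast
        ring
      have h3 : ∑ k, v k * cv v k = ((∑ k, ‖v k‖ ^ 2 : ℝ) : ℂ) := by
        push_cast
        refine Finset.sum_congr rfl fun j _ => ?_
        unfold cv
        rw [Complex.mul_conj, Complex.normSq_eq_norm_sq]
        push_cast
        ring
      have h4 : (0 : ℝ) < ∑ k, ‖v k‖ ^ 2 := by
        obtain ⟨k, hk⟩ : ∃ k, v k ≠ 0 := by
          by_contra h
          push Not at h
          exact hv (funext h)
        apply Finset.sum_pos' (fun j _ => by positivity)
        exact ⟨k, Finset.mem_univ _, by positivity⟩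
      rw [h2, h3] at h1
      refine ⟨(∑ j, ‖eval v (p j)‖ ^ 2) / (∑ k, ‖v k‖ ^ 2), by positivity, ?_⟩
      have h5 : ((∑ k, ‖v k‖ ^ 2 : ℝ) : ℂ) ≠ 0 := by exact_mod_cast h4.ne'
      rw [Complex.ofReal_div, eq_div_iff h5, h1]
      ring
  let T : EuclideanSpace ℂ (Fin n) →ₗ[ℂ] EuclideanSpace ℂ (Fin n) :=
    { toFun := fun z => WithLp.toLp 2 (fun l => AA A (WithLp.ofLp z) (Pi.single l 1))
      map_add' := by
        intro x y
        ext l
        simp only [WithLp.ofLp_add, PiLp.add_apply]
        rw [hlinz (Pi.single l 1) (WithLp.ofLp x + WithLp.ofLp y), hlinz (Pi.single l 1) (WithLp.ofLp x),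
          hlinz (Pi.single l 1) (WithLp.ofLp y), ← Finset.sum_add_distrib]
        refine Finset.sum_congr rfl fun i _ => ?_
        rw [Pi.add_apply]
        ring
      map_smul' := by
        intro c x
        ext l
        simp only [WithLp.ofLp_smul, PiLp.smul_apply, RingHom.id_apply, smul_eq_mul]
        rw [(hhom c (WithLp.ofLp x) (Pi.single l 1)).1, pow_one] }
  have hinner : ∀ w z : EuclideanSpace ℂ (Fin n),
      ⟪w, T z⟫_ℂ = AA A (WithLp.ofLp z) (cv (WithLp.ofLp w)) := by
    intro w z
    rw [PiLp.inner_apply, hlinY (WithLp.ofLp z) (cv (WithLp.ofLp w))]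
    refine Finset.sum_congr rfl fun l _ => ?_
    simp only [RCLike.inner_apply]
    rw [mul_comm]
    rfl
  have hinner' : ∀ w z : EuclideanSpace ℂ (Fin n),
      ⟪w, z⟫_ℂ = ∑ k, z k * cv (WithLp.ofLp w) k := by
    intro w z
    rw [PiLp.inner_apply]
    refine Finset.sum_congr rfl fun l _ => ?_
    simp only [RCLike.inner_apply]
    rfl
  have hT : T.IsSymmetric := by
    rw [LinearMap.isSymmetric_iff_inner_map_self_real]
    intro v
    rw [inner_conj_symm]
    obtain ⟨r, -, hr⟩ := hreal (WithLp.ofLp v)
    rw [← inner_conj_symm (T v) v, hinner v v, hr, Complex.conj_ofReal]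
  have hfin : finrank ℂ (EuclideanSpace ℂ (Fin n)) = n := finrank_euclideanSpace_fin
  set u := hT.eigenvectorBasis hfin with hu
  set lam := hT.eigenvalues hfin with hlam
  have hTu : ∀ e, T (u e) = (lam e : ℂ) • u e := fun e => hT.apply_eigenvectorBasis hfin e
  -- coordinates
  have hco : ∀ (z : EuclideanSpace ℂ (Fin n)) (e : Fin n),
      AA A (WithLp.ofLp z) (cv (WithLp.ofLp (u e))) = lam e * ⟪u e, z⟫_ℂ := by
    intro z e
    rw [← hinner, ← hT (u e) z, hTu, inner_smul_left, Complex.conj_ofReal]
  have hlam0 : ∀ e, 0 ≤ lam e := by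
    intro e
    obtain ⟨r, hr0, hr⟩ := hreal (WithLp.ofLp (u e))
    rw [hco, orthonormal_iff_ite.mp u.orthonormal e e, if_pos rfl, mul_one] at hr
    have : lam e = r := by exact_mod_cast hr
    rw [this]
    exact hr0
  by_cases hcase : ∃ i0 i1, i0 ≠ i1 ∧ lam i0 ≠ 0 ∧ lam i1 ≠ 0
  · -- two positive eigenvalues
    exfalso
    obtain ⟨i0, i1, h01, hl0, hl1⟩ := hcase
    have hp0 : 0 < lam i0 := lt_of_le_of_ne (hlam0 i0) (Ne.symm hl0)
    have hp1 : 0 < lam i1 := lt_of_le_of_ne (hlam0 i1) (Ne.symm hl1)
    let Yv : Fin n → (Fin n → ℂ) := fun e => cv (WithLp.ofLp (u e))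
    let a : Fin n → Fin n → (Fin m → ℂ) := fun e f j =>
      eval (Yv e + Yv f) (cj (p j)) - eval (Yv e) (cj (p j)) - eval (Yv f) (cj (p j))
    have ha : ∀ (e f : Fin n) (z : EuclideanSpace ℂ (Fin n)),
        ∑ j, eval (WithLp.ofLp z) (p j) * a e f j =
          ((lam e : ℂ) + lam f) * ⟪u e, z⟫_ℂ * ⟪u f, z⟫_ℂ := by
      intro e f z
      have h1 : ∑ j, eval (WithLp.ofLp z) (p j) * a e f j =
          KK p (WithLp.ofLp z) (Yv e + Yv f) - KK p (WithLp.ofLp z) (Yv e) -
            KK p (WithLp.ofLp z) (Yv f) := by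
        unfold KK
        rw [← Finset.sum_sub_distrib, ← Finset.sum_sub_distrib]
        refine Finset.sum_congr rfl fun j _ => ?_
        simp only [a]
        ring
      have h2 : AA A (WithLp.ofLp z) (Yv e + Yv f) =
          AA A (WithLp.ofLp z) (Yv e) + AA A (WithLp.ofLp z) (Yv f) := by
        rw [hlinY _ (Yv e + Yv f), hlinY _ (Yv e), hlinY _ (Yv f), ← Finset.sum_add_distrib]
        refine Finset.sum_congr rfl fun i _ => ?_
        rw [Pi.add_apply]
        ring
      have h3 : ∑ k, WithLp.ofLp z k * (Yv e + Yv f) k = ⟪u e, z⟫_ℂ + ⟪u f, z⟫_ℂ := by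
        rw [hinner', hinner', ← Finset.sum_add_distrib]
        refine Finset.sum_congr rfl fun i _ => ?_
        rw [Pi.add_apply]
        ring
      rw [h1, KK_eq_zero hS, KK_eq_zero hS, KK_eq_zero hS, h2, h3]
      have h4 : ∀ e, ∑ k, WithLp.ofLp z k * Yv e k = ⟪u e, z⟫_ℂ := fun e => (hinner' _ _).symm
      rw [h4, h4]
      have h5 : ∀ e, AA A (WithLp.ofLp z) (Yv e) = lam e * ⟪u e, z⟫_ℂ := fun e => hco z e
      rw [h5, h5]
      ring
    let g : Fin n ⊕ {f : Fin n // f ≠ i0} → (Fin m → ℂ) :=
      Sum.elim (fun f => a i0 f) (fun f => a i1 f.1)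
    have hg : LinearIndependent ℂ g := by
      rw [Fintype.linearIndependent_iff]
      intro c hc
      have h1 : ∀ w : Fin n → ℂ,
          w i0 * ∑ f, (c (Sum.inl f) * ((lam i0 : ℂ) + lam f)) * w f +
          w i1 * ∑ f : {f : Fin n // f ≠ i0}, (c (Sum.inr f) * ((lam i1 : ℂ) + lam f.1)) * w f.1
            = 0 := by
        intro w
        set z : EuclideanSpace ℂ (Fin n) := ∑ e, w e • u e with hz
        have hzw : ∀ e, ⟪u e, z⟫_ℂ = w e := by
          intro e
          rw [hz, inner_sum, Finset.sum_eq_single e]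
          · rw [inner_smul_right, orthonormal_iff_ite.mp u.orthonormal e e, if_pos rfl, mul_one]
          · intro f _ hf
            rw [inner_smul_right, orthonormal_iff_ite.mp u.orthonormal e f, if_neg (Ne.symm hf),
              mul_zero]
          · intro h
            exact absurd (Finset.mem_univ _) h
        have h2 : ∑ j, eval (WithLp.ofLp z) (p j) * (∑ i, c i • g i) j = 0 := by
          rw [hc]
          simp
        rw [Fintype.sum_sum_type] at h2
        have h3 : ∑ j, eval (WithLp.ofLp z) (p j) *
            ((∑ f : Fin n, c (Sum.inl f) • g (Sum.inl f)) +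
              ∑ f : {f : Fin n // f ≠ i0}, c (Sum.inr f) • g (Sum.inr f)) j =
            ∑ f : Fin n, c (Sum.inl f) * ∑ j, eval (WithLp.ofLp z) (p j) * a i0 f j +
            ∑ f : {f : Fin n // f ≠ i0}, c (Sum.inr f) *
              ∑ j, eval (WithLp.ofLp z) (p j) * a i1 f.1 j := by
          simp only [Finset.mul_sum]
          rw [Finset.sum_comm, Finset.sum_comm (s := (Finset.univ : Finset {f : Fin n // f ≠ i0})),
            ← Finset.sum_add_distrib]
          refine Finset.sum_congr rfl fun j _ => ?_
          rw [Pi.add_apply, Finset.sum_apply, Finset.sum_apply, mul_add, Finset.mul_sum,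
            Finset.mul_sum]
          congr 1
          · refine Finset.sum_congr rfl fun f _ => ?_
            simp only [g, Sum.elim_inl, Pi.smul_apply, smul_eq_mul]
            ring
          · refine Finset.sum_congr rfl fun f _ => ?_
            simp only [g, Sum.elim_inr, Pi.smul_apply, smul_eq_mul]
            ring
        rw [h3] at h2
        rw [← h2, Finset.mul_sum, Finset.mul_sum]
        congr 1
        · refine Finset.sum_congr rfl fun f _ => ?_
          rw [ha, hzw, hzw]
          ring
        · refine Finset.sum_congr rfl fun f _ => ?_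
          rw [ha, hzw, hzw]
          ring
      have hpos0 : ∀ f, ((lam i0 : ℂ) + lam f) ≠ 0 := by
        intro f h
        have h2 : lam i0 + lam f = 0 := by exact_mod_cast h
        have := hlam0 f
        linarith
      have hpos1 : ∀ f, ((lam i1 : ℂ) + lam f) ≠ 0 := by
        intro f h
        have h2 : lam i1 + lam f = 0 := by exact_mod_cast h
        have := hlam0 f
        linarith
      set α : Fin n → ℂ := fun f => c (Sum.inl f) * ((lam i0 : ℂ) + lam f) with hα
      set β : {f : Fin n // f ≠ i0} → ℂ := fun f => c (Sum.inr f) * ((lam i1 : ℂ) + lam f.1) with hβ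
      have h1' : ∀ w : Fin n → ℂ,
          w i0 * ∑ f, α f * w f + w i1 * ∑ f : {f : Fin n // f ≠ i0}, β f * w f.1 = 0 := h1
      have hs4 : ∀ x y : Fin n → ℂ, ∑ f, α f * (x + y) f = ∑ f, α f * x f + ∑ f, α f * y f := by
        intro x y
        rw [← Finset.sum_add_distrib]
        exact Finset.sum_congr rfl fun f _ => by rw [Pi.add_apply, mul_add]
      have hs5 : ∀ x y : Fin n → ℂ, ∑ f : {f : Fin n // f ≠ i0}, β f * (x + y) f.1 =
          ∑ f : {f : Fin n // f ≠ i0}, β f * x f.1 + ∑ f : {f : Fin n // f ≠ i0}, β f * y f.1 := by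
        intro x y
        rw [← Finset.sum_add_distrib]
        exact Finset.sum_congr rfl fun f _ => by rw [Pi.add_apply, mul_add]
      have hs1 : ∀ (x : Fin n), ∑ f, α f * (Pi.single x 1 : Fin n → ℂ) f = α x := by
        intro x
        rw [Finset.sum_eq_single x]
        · simp
        · intro f _ hf
          rw [Pi.single_eq_of_ne hf, mul_zero]
        · intro h
          exact absurd (Finset.mem_univ _) h
      have hs2 : ∀ (x : {f : Fin n // f ≠ i0}),
          ∑ f : {f : Fin n // f ≠ i0}, β f * (Pi.single x.1 1 : Fin n → ℂ) f.1 = β x := by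
        intro x
        rw [Finset.sum_eq_single x]
        · simp
        · intro f _ hf
          rw [Pi.single_eq_of_ne (fun h => hf (Subtype.ext h)), mul_zero]
        · intro h
          exact absurd (Finset.mem_univ _) h
      have hs3 : ∑ f : {f : Fin n // f ≠ i0}, β f * (Pi.single i0 1 : Fin n → ℂ) f.1 = 0 := by
        apply Finset.sum_eq_zero
        intro f _
        rw [Pi.single_eq_of_ne f.2, mul_zero]
      have hα0 : α i0 = 0 := by
        have := h1' (Pi.single i0 1)
        rw [hs1, hs3, Pi.single_eq_same, Pi.single_eq_of_ne (Ne.symm h01)] at this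
        linear_combination this
      have hβ1 : β ⟨i1, Ne.symm h01⟩ = 0 := by
        have := h1' (Pi.single i1 1)
        rw [hs1, hs2 ⟨i1, Ne.symm h01⟩, Pi.single_eq_same, Pi.single_eq_of_ne h01] at this
        linear_combination this
      have hα1 : α i1 = 0 := by
        have := h1' (Pi.single i0 1 + Pi.single i1 1)
        rw [hs4, hs5, Pi.add_apply, Pi.add_apply, hs1, hs1, hs3, hs2 ⟨i1, Ne.symm h01⟩, Pi.single_eq_same, Pi.single_eq_same,
          Pi.single_eq_of_ne (Ne.symm h01), Pi.single_eq_of_ne h01, hα0, hβ1] at this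
        linear_combination this
      have hαf : ∀ f, f ≠ i0 → f ≠ i1 → α f = 0 := by
        intro f hf0 hf1
        have := h1' (Pi.single i0 1 + Pi.single f 1)
        rw [hs4, hs5, Pi.add_apply, Pi.add_apply, hs1, hs1, hs3, hs2 ⟨f, hf0⟩, Pi.single_eq_same,
          Pi.single_eq_of_ne (Ne.symm h01), Pi.single_eq_of_ne (Ne.symm hf0),
          Pi.single_eq_of_ne (Ne.symm hf1), hα0] at this
        linear_combination this
      have hβf : ∀ f : {f : Fin n // f ≠ i0}, f.1 ≠ i1 → β f = 0 := by
        intro f hf1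
        have := h1' (Pi.single i1 1 + Pi.single f.1 1)
        rw [hs4, hs5, Pi.add_apply, Pi.add_apply, hs1, hs1, hs2 ⟨i1, Ne.symm h01⟩, hs2 f, Pi.single_eq_same,
          Pi.single_eq_of_ne h01, Pi.single_eq_of_ne (Ne.symm f.2),
          Pi.single_eq_of_ne (Ne.symm hf1), hβ1] at this
        linear_combination this
      have hαall : ∀ f, α f = 0 := by
        intro f
        by_cases hf0 : f = i0
        · rw [hf0]; exact hα0
        · by_cases hf1 : f = i1
          · rw [hf1]; exact hα1
          · exact hαf f hf0 hf1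
      have hβall : ∀ f, β f = 0 := by
        intro f
        by_cases hf1 : f.1 = i1
        · have : f = ⟨i1, Ne.symm h01⟩ := Subtype.ext hf1
          rw [this]; exact hβ1
        · exact hβf f hf1
      rintro (f | f)
      · rcases mul_eq_zero.mp (hαall f) with h | h
        · exact h
        · exact absurd h (hpos0 f)
      · rcases mul_eq_zero.mp (hβall f) with h | h
        · exact h
        · exact absurd h (hpos1 f.1)
    have hcard := hg.fintype_card_le_finrank
    rw [Fintype.card_sum, Fintype.card_fin, finrank_fin_fun] at hcard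
    have hc2 : Fintype.card {f : Fin n // f ≠ i0} = n - 1 := by
      rw [Fintype.card_subtype, Finset.filter_ne', Finset.card_erase_of_mem (Finset.mem_univ _),
        Finset.card_univ, Fintype.card_fin]
    omega
  · -- at most one positive eigenvalue
    push Not at hcase
    obtain ⟨i0, hi0⟩ : ∃ i0, ∀ e, e ≠ i0 → lam e = 0 := by
      by_cases h : ∃ i0, lam i0 ≠ 0
      · obtain ⟨i0, h0⟩ := h
        exact ⟨i0, fun e he => hcase i0 e (Ne.symm he) h0⟩
      · push Not at h
        exact ⟨⟨0, hn⟩, fun e _ => h e⟩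
    obtain ⟨Z, hZ⟩ := exists_points hS.1
    let zz : Fin m → EuclideanSpace ℂ (Fin n) := fun i => WithLp.toLp 2 (Z i)
    let b : Fin m → (Fin n → ℂ) := fun i e => ⟪u i0, zz i⟫_ℂ * ⟪u e, zz i⟫_ℂ
    have hK : ∀ i i', KK p (Z i) (cv (Z i')) =
        lam i0 * ∑ e, b i e * (starRingEnd ℂ) (b i' e) := by
      intro i i'
      rw [KK_eq_zero hS]
      have h1 : ∑ k, Z i k * cv (Z i') k = ∑ e, ⟪u e, zz i⟫_ℂ * (starRingEnd ℂ) ⟪u e, zz i'⟫_ℂ := by
        have h2 := hinner' (zz i') (zz i)
        have h3 := u.sum_inner_mul_inner (zz i') (zz i)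
        rw [← h3] at h2
        rw [show ∑ k, Z i k * cv (Z i') k = ∑ k, (zz i) k * cv (WithLp.ofLp (zz i')) k from rfl,
          ← h2]
        refine Finset.sum_congr rfl fun e _ => ?_
        rw [inner_conj_symm, mul_comm]
      have h4 : AA A (Z i) (cv (Z i')) =
          lam i0 * (⟪u i0, zz i⟫_ℂ * (starRingEnd ℂ) ⟪u i0, zz i'⟫_ℂ) := by
        have h2 := hinner (zz i') (zz i)
        have h3 := u.sum_inner_mul_inner (zz i') (T (zz i))
        rw [← h3] at h2
        rw [show AA A (Z i) (cv (Z i')) = AA A (WithLp.ofLp (zz i)) (cv (WithLp.ofLp (zz i')))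
          from rfl, ← h2, Finset.sum_eq_single i0]
        · rw [hinner, hco, inner_conj_symm]
          ring
        · intro e _ he
          rw [hinner, hco, hi0 e he]
          simp
        · intro h
          exact absurd (Finset.mem_univ _) h
      rw [h1, h4, Finset.sum_mul, Finset.mul_sum]
      refine Finset.sum_congr rfl fun e _ => ?_
      simp only [b, map_mul]
      ring
    have hb : LinearIndependent ℂ b := by
      rw [Fintype.linearIndependent_iff]
      intro c hc
      have hx : ∑ i, c i • ev p (Z i) = 0 := by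
        set x : Fin m → ℂ := ∑ i, c i • ev p (Z i) with hx
        have h1 : ∀ i', ∑ j, x j * (starRingEnd ℂ) (eval (Z i') (p j)) = 0 := by
          intro i'
          have h2 : ∑ j, x j * (starRingEnd ℂ) (eval (Z i') (p j)) =
              ∑ i, c i * KK p (Z i) (cv (Z i')) := by
            unfold KK
            simp only [Finset.mul_sum]
            rw [Finset.sum_comm]
            refine Finset.sum_congr rfl fun j _ => ?_
            rw [hx, Finset.sum_apply, Finset.sum_mul]
            refine Finset.sum_congr rfl fun i _ => ?_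
            rw [eval_cj, Pi.smul_apply, smul_eq_mul, mul_assoc]
            rfl
          rw [h2]
          have h3 : ∑ i, c i * KK p (Z i) (cv (Z i')) =
              lam i0 * ∑ e, (∑ i, c i • b i) e * (starRingEnd ℂ) (b i' e) := by
            simp only [hK, Finset.mul_sum, Finset.sum_apply, Finset.sum_mul]
            rw [Finset.sum_comm]
            refine Finset.sum_congr rfl fun e _ => ?_
            refine Finset.sum_congr rfl fun i _ => ?_
            rw [Pi.smul_apply, smul_eq_mul]
            ring
          rw [h3, hc]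
          simp
        have h4 : ∑ j, x j * (starRingEnd ℂ) (x j) = 0 := by
          have h5 : ∑ j, x j * (starRingEnd ℂ) (x j) =
              ∑ i', (starRingEnd ℂ) (c i') * ∑ j, x j * (starRingEnd ℂ) (eval (Z i') (p j)) := by
            simp only [Finset.mul_sum]
            rw [Finset.sum_comm]
            refine Finset.sum_congr rfl fun j _ => ?_
            have h6 : x j = ∑ i, c i * eval (Z i) (p j) := by
              rw [hx, Finset.sum_apply]
              rfl
            conv_lhs => rw [h6, map_sum, Finset.mul_sum]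
            refine Finset.sum_congr rfl fun i _ => ?_
            rw [← h6, map_mul]
            ring
          rw [h5]
          exact Finset.sum_eq_zero fun i' _ => by rw [h1, mul_zero]
        have h5 : ((∑ j, ‖x j‖ ^ 2 : ℝ) : ℂ) = 0 := by
          rw [← h4]
          push_cast
          refine Finset.sum_congr rfl fun j _ => ?_
          rw [Complex.mul_conj, Complex.normSq_eq_norm_sq]
          push_cast
          ring
        have h6 : (∑ j, ‖x j‖ ^ 2 : ℝ) = 0 := by exact_mod_cast h5
        rw [Finset.sum_eq_zero_iff_of_nonneg (fun j _ => by positivity)] at h6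
        funext j
        have h7 := h6 j (Finset.mem_univ _)
        exact norm_eq_zero.mp ((pow_eq_zero_iff two_ne_zero).mp h7)
      exact Fintype.linearIndependent_iff.mp hZ c hx
    have hcard := hb.fintype_card_le_finrank
    rw [Fintype.card_fin, finrank_fin_fun] at hcard
    exact hcard

end H12.FG
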