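import Pool.Agent.H95.FG.Defs

open MvPolynomial

namespace H12.FG

open H95.FG

theorem cj_isHomogeneous {n : ℕ} {f : MvPolynomial (Fin n) ℂ} {N : ℕ} (h : f.IsHomogeneous N) :
    (cj f).IsHomogeneous N := by
  unfold cj
  exact h.map _

theorem hc_finset_sum {σ ι : Type} {N : ℕ} (s : Finset ι) (f : ι → MvPolynomial σ ℂ) :
    homogeneousComponent N (∑ i ∈ s, f i) = ∑ i ∈ s, homogeneousComponent N (f i) :=
  map_sum _ _ _

theorem hc_of {σ : Type} {M N : ℕ} {f : MvPolynomial σ ℂ} (h : f.IsHomogeneous M) :
    homogeneousComponent N f = if M = N then f else 0 := by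
  have h1 := homogeneousComponent_of_mem (m := N) (n := M) (p := f)
    ((mem_homogeneousSubmodule M f).mpr h)
  rw [h1]
  by_cases h2 : M = N
  · rw [if_pos h2, if_pos h2.symm]
  · rw [if_neg h2, if_neg (Ne.symm h2)]

/-- a polynomial of degree at most `N` is the sum of its homogeneous components -/
theorem sum_hc {σ : Type} {N : ℕ} {f : MvPolynomial σ ℂ} (h : f.totalDegree ≤ N) :
    ∑ i ∈ Finset.range (N + 1), homogeneousComponent i f = f := by
  conv_rhs => rw [← sum_homogeneousComponent f]
  symm
  apply Finset.sum_subset
  · intro i hi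
    rw [Finset.mem_range] at hi ⊢
    omega
  · intro i _ hi
    rw [Finset.mem_range] at hi
    exact homogeneousComponent_eq_zero _ _ (by omega)

/-- the component of degree `2 N` of a product of polynomials of degree at most `N` -/
theorem hc_mul_top {σ : Type} {N : ℕ} {f g : MvPolynomial σ ℂ} (hf : f.totalDegree ≤ N)
    (hg : g.totalDegree ≤ N) : homogeneousComponent (2 * N) (f * g) =
      homogeneousComponent N f * homogeneousComponent N g := by
  conv_lhs => rw [← sum_hc hf, ← sum_hc hg, Finset.sum_mul_sum, hc_finset_sum]
  rw [Finset.sum_eq_single N]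
  · rw [hc_finset_sum, Finset.sum_eq_single N]
    · rw [hc_of ((homogeneousComponent_isHomogeneous N f).mul
        (homogeneousComponent_isHomogeneous N g)), if_pos (by ring)]
    · intro j hj hj'
      rw [Finset.mem_range] at hj
      rw [hc_of ((homogeneousComponent_isHomogeneous N f).mul
        (homogeneousComponent_isHomogeneous j g)), if_neg (by omega)]
    · intro h
      exact absurd (Finset.mem_range.mpr (by omega)) h
  · intro i hi hi'
    rw [Finset.mem_range] at hi
    rw [hc_finset_sum]
    apply Finset.sum_eq_zero
    intro j hj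
    rw [Finset.mem_range] at hj
    rw [hc_of ((homogeneousComponent_isHomogeneous i f).mul
      (homogeneousComponent_isHomogeneous j g)), if_neg (by omega)]
  · intro h
    exact absurd (Finset.mem_range.mpr (by omega)) h

theorem totalDegree_cj_le {n : ℕ} (f : MvPolynomial (Fin n) ℂ) :
    (cj f).totalDegree ≤ f.totalDegree := by
  unfold cj totalDegree
  exact Finset.sup_mono (support_map_subset _ _)

theorem hc_rename {σ τ : Type} {N : ℕ} (e : σ → τ) (f : MvPolynomial σ ℂ) :
    homogeneousComponent N (rename e f) = rename e (homogeneousComponent N f) := by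
  conv_lhs => rw [← sum_homogeneousComponent f, map_sum, hc_finset_sum]
  by_cases hN : N ≤ f.totalDegree
  · rw [Finset.sum_eq_single N]
    · rw [hc_of ((homogeneousComponent_isHomogeneous N f).rename_isHomogeneous), if_pos rfl]
    · intro i _ hi
      rw [hc_of ((homogeneousComponent_isHomogeneous i f).rename_isHomogeneous), if_neg hi]
    · intro h
      exact absurd (Finset.mem_range.mpr (by omega)) h
  · rw [homogeneousComponent_eq_zero N f (by omega), map_zero]
    apply Finset.sum_eq_zero
    intro i hi
    rw [Finset.mem_range] at hi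
    rw [hc_of ((homogeneousComponent_isHomogeneous i f).rename_isHomogeneous), if_neg (by omega)]

theorem hc_cj {n N : ℕ} (f : MvPolynomial (Fin n) ℂ) :
    homogeneousComponent N (cj f) = cj (homogeneousComponent N f) := by
  have hs : cj f = ∑ i ∈ Finset.range (f.totalDegree + 1), cj (homogeneousComponent i f) := by
    conv_lhs => rw [← sum_homogeneousComponent f]
    unfold cj
    rw [map_sum]
  rw [hs, hc_finset_sum]
  by_cases hN : N ≤ f.totalDegree
  · rw [Finset.sum_eq_single N]
    · rw [hc_of (cj_isHomogeneous (homogeneousComponent_isHomogeneous N f)), if_pos rfl]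
    · intro i _ hi
      rw [hc_of (cj_isHomogeneous (homogeneousComponent_isHomogeneous i f)), if_neg hi]
    · intro h
      exact absurd (Finset.mem_range.mpr (by omega)) h
  · rw [homogeneousComponent_eq_zero N f (by omega)]
    have : cj (0 : MvPolynomial (Fin n) ℂ) = 0 := by unfold cj; exact map_zero _
    rw [this]
    apply Finset.sum_eq_zero
    intro i hi
    rw [Finset.mem_range] at hi
    rw [hc_of (cj_isHomogeneous (homogeneousComponent_isHomogeneous i f)), if_neg (by omega)]

/-- component of `q * A`, `q` homogeneous of degree two -/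
theorem hc_quad_mul {σ : Type} {N : ℕ} {q A : MvPolynomial σ ℂ} (hq : q.IsHomogeneous 2) :
    homogeneousComponent (N + 2) (q * A) = q * homogeneousComponent N A := by
  conv_lhs => rw [← sum_homogeneousComponent A, Finset.mul_sum, hc_finset_sum]
  by_cases hN : N ≤ A.totalDegree
  · rw [Finset.sum_eq_single N]
    · rw [hc_of (hq.mul (homogeneousComponent_isHomogeneous N A)), if_pos (by ring)]
    · intro i _ hi
      rw [hc_of (hq.mul (homogeneousComponent_isHomogeneous i A)), if_neg (by omega)]
    · intro h
      exact absurd (Finset.mem_range.mpr (by omega)) h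
  · rw [homogeneousComponent_eq_zero N A (by omega), mul_zero]
    apply Finset.sum_eq_zero
    intro i hi
    rw [Finset.mem_range] at hi
    rw [hc_of (hq.mul (homogeneousComponent_isHomogeneous i A)), if_neg (by omega)]

theorem hom_eval_smul {n N : ℕ} {f : MvPolynomial (Fin n) ℂ} (h : f.IsHomogeneous N)
    (z : Fin n → ℂ) (s : ℂ) : eval (s • z) f = s ^ N * eval z f := by
  rw [eval_eq', eval_eq', Finset.mul_sum]
  refine Finset.sum_congr rfl fun d hd => ?_
  have h1 : ∑ i, d i = N := by
    have h2 := h (mem_support_iff.mp hd)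
    have h3 : Finsupp.degree d = N := by
      rw [Finsupp.degree_eq_weight_one]
      exact h2
    rw [Finsupp.degree_eq_sum] at h3
    exact h3
  simp_rw [Pi.smul_apply, smul_eq_mul, mul_pow, Finset.prod_mul_distrib,
    Finset.prod_pow_eq_pow_sum, h1]
  ring

/-- evaluation at `s z` as a polynomial in `s` -/
theorem eval_smul_eq {n N : ℕ} {f : MvPolynomial (Fin n) ℂ} (h : f.totalDegree ≤ N)
    (z : Fin n → ℂ) (s : ℂ) : eval (s • z) f =
      ∑ i ∈ Finset.range (N + 1), s ^ i * eval z (homogeneousComponent i f) := by
  conv_lhs => rw [← sum_hc h, map_sum]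
  refine Finset.sum_congr rfl fun i _ => ?_
  exact hom_eval_smul (homogeneousComponent_isHomogeneous i f) z s

/-- two polynomials in `s` that agree everywhere have the same coefficient -/
theorem coeff_eq_of_forall {N : ℕ} {u v : ℕ → ℂ}
    (h : ∀ s : ℂ, ∑ i ∈ Finset.range (N + 1), s ^ i * u i =
      ∑ i ∈ Finset.range (N + 1), s ^ i * v i) : u N = v N := by
  have h1 : (∑ i ∈ Finset.range (N + 1), Polynomial.monomial i (u i)) =
      ∑ i ∈ Finset.range (N + 1), Polynomial.monomial i (v i) := by
    apply Polynomial.funext
    intro s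
    simp only [Polynomial.eval_finsetSum, Polynomial.eval_monomial]
    have := h s
    simp only [mul_comm (s ^ _)] at this
    exact this
  have h2 := congrArg (fun q => Polynomial.coeff q N) h1
  simp only [Polynomial.finsetSum_coeff, Polynomial.coeff_monomial] at h2
  simpa using h2

theorem t_TOP : S_TOP := by
  intro n m p A hm hS hL N hN hN'
  classical
  set q : Fin m → MvPolynomial (Fin n) ℂ := fun j => homogeneousComponent N (p j) with hq
  have hN1 : 1 ≤ N := by
    by_contra hcon
    have hN0 : N = 0 := by omega
    have hdeg : ∀ j, p j = C (coeff 0 (p j)) := by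
      intro j
      exact (totalDegree_eq_zero_iff_eq_C).mp (by have := hN j; omega)
    have h1 := congrArg (eval (0 : Fin n ⊕ Fin n → ℂ)) hS.2
    simp only [map_sum, map_mul, eval_X, Pi.zero_apply, mul_zero, Finset.sum_const_zero,
      zero_mul] at h1
    have h2 : ∀ j, coeff 0 (p j) = 0 := by
      have h3 : ∑ j, ((starRingEnd ℂ) (coeff 0 (p j)) * coeff 0 (p j)) = 0 := by
        rw [← h1]
        refine Finset.sum_congr rfl fun j _ => ?_
        rw [hdeg j]
        unfold cj
        simp [mul_comm]
      have h4 : ((∑ j, ‖coeff 0 (p j)‖ ^ 2 : ℝ) : ℂ) = 0 := by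
        rw [← h3]
        push_cast
        refine Finset.sum_congr rfl fun j _ => ?_
        rw [mul_comm, Complex.mul_conj, Complex.normSq_eq_norm_sq]
        push_cast
        ring
      have h5 : (∑ j, ‖coeff 0 (p j)‖ ^ 2 : ℝ) = 0 := by exact_mod_cast h4
      rw [Finset.sum_eq_zero_iff_of_nonneg (fun j _ => by positivity)] at h5
      intro j
      have h6 := h5 j (Finset.mem_univ _)
      have h7 : ‖coeff 0 (p j)‖ = 0 := pow_eq_zero_iff (two_ne_zero) |>.mp h6
      exact norm_eq_zero.mp h7
    have h3 := hS.1.ne_zero ⟨0, hm⟩
    apply h3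
    rw [hdeg, h2, C_0]
  refine ⟨hN1, q, homogeneousComponent (2 * N - 2) A, ⟨?_, ?_⟩, ?_⟩
  · -- linear independence
    have hcross : ∀ i j, q i * p j = q j * p i := by
      intro i j
      apply MvPolynomial.funext
      intro z
      rw [map_mul, map_mul]
      have h1 : ∀ s : ℂ, ∑ l ∈ Finset.range (N + 1),
          s ^ l * (eval z (homogeneousComponent l (p i)) * eval z (p j)) =
          ∑ l ∈ Finset.range (N + 1),
          s ^ l * (eval z (homogeneousComponent l (p j)) * eval z (p i)) := by
        intro s
        have h2 := hL z s i j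
        rw [eval_smul_eq (hN i), eval_smul_eq (hN j), Finset.sum_mul, Finset.sum_mul] at h2
        simp only [mul_assoc] at h2
        exact h2
      exact coeff_eq_of_forall h1
    obtain ⟨i, hi⟩ := hN'
    have hqi : q i ≠ 0 := by
      have hpi : p i ≠ 0 := hS.1.ne_zero i
      intro h
      have h1 : ∃ d ∈ (p i).support, Finsupp.degree d = (p i).totalDegree := by
        obtain ⟨d, hd, hd'⟩ := Finset.exists_mem_eq_sup (p i).support
          (support_nonempty.mpr hpi) (fun s => s.sum fun _ e => e)
        exact ⟨d, hd, hd'.symm⟩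
      obtain ⟨d, hd, hd'⟩ := h1
      have h2 := congrArg (coeff d) h
      simp only [hq] at h2
      rw [coeff_homogeneousComponent, if_pos (hd'.trans hi), coeff_zero] at h2
      exact (mem_support_iff.mp hd) h2
    rw [Fintype.linearIndependent_iff]
    intro g hg
    have h1 : q i * ∑ j, g j • p j = 0 := by
      calc q i * ∑ j, g j • p j = ∑ j, g j • (q i * p j) := by
            rw [Finset.mul_sum]
            refine Finset.sum_congr rfl fun j _ => ?_
            rw [mul_smul_comm]
        _ = ∑ j, g j • (q j * p i) := by
            refine Finset.sum_congr rfl fun j _ => ?_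
            rw [hcross]
        _ = (∑ j, g j • q j) * p i := by
            rw [Finset.sum_mul]
            refine Finset.sum_congr rfl fun j _ => ?_
            rw [smul_mul_assoc]
        _ = 0 := by rw [hg, zero_mul]
    rcases mul_eq_zero.mp h1 with h2 | h2
    · exact absurd h2 hqi
    · exact Fintype.linearIndependent_iff.mp hS.1 g h2
  · have h1 := congrArg (homogeneousComponent (2 * N)) hS.2
    rw [hc_finset_sum] at h1
    have hquad : (∑ k : Fin n, X (Sum.inl k) * X (Sum.inr k) :
        MvPolynomial (Fin n ⊕ Fin n) ℂ).IsHomogeneous 2 := by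
      apply IsHomogeneous.sum
      intro k _
      exact (isHomogeneous_X ℂ _).mul (isHomogeneous_X ℂ _)
    have e : 2 * N = (2 * N - 2) + 2 := by omega
    rw [show homogeneousComponent (2 * N) ((∑ k : Fin n, X (Sum.inl k) * X (Sum.inr k)) * A) =
      (∑ k : Fin n, X (Sum.inl k) * X (Sum.inr k)) * homogeneousComponent (2 * N - 2) A by
        conv_lhs => rw [e]
        exact hc_quad_mul hquad] at h1
    rw [← h1]
    refine Finset.sum_congr rfl fun j _ => ?_
    rw [hc_mul_top, hc_rename, hc_rename, hc_cj]
    · exact (totalDegree_rename_le _ _).trans (hN j)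
    · exact (totalDegree_rename_le _ _).trans ((totalDegree_cj_le _).trans (hN j))
  · intro j
    exact homogeneousComponent_isHomogeneous N (p j)

end H12.FG
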